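import Pool.Agent.Helper12.SketchSep

/-!
# One-way protocols and linear sketches for functions given by features

`T` is a finite set of tests, `pt` assigns a point to every test, and `rh w X = ∑ φ X i * ψ w i` is a
bilinear form modulo a prime `p`. The function is `1` on `(w, z)` iff `rh w X = 0` for all tests `X`
with `z X = 1`.
-/

set_option autoImplicit false

open Finset

namespace Pool.Agent.Y601.SK

open Pool.Agent.Helper12.SketchSep (chi HasSketch HasOneWay xorFn Lm hasOneWay_of_msg sum_ite_const)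

variable {N n p : ℕ} {T I : Type} [Fintype T] [Fintype I]

/-- first part -/
def q1 (j : Fin N ⊕ T → Fin n) (x : Fin n → ZMod 2) : Fin N → ZMod 2 := fun a => x (j (Sum.inl a))

/-- second part -/
def q2 (j : Fin N ⊕ T → Fin n) (x : Fin n → ZMod 2) : T → ZMod 2 := fun X => x (j (Sum.inr X))

theorem q1_add (j : Fin N ⊕ T → Fin n) (x y : Fin n → ZMod 2) :
    q1 j (x + y) = q1 j x + q1 j y := rfl

theorem q2_add (j : Fin N ⊕ T → Fin n) (x y : Fin n → ZMod 2) :
    q2 j (x + y) = q2 j x + q2 j y := rfl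

/-- the form -/
def rh (φ : T → I → ZMod p) (ψ : (Fin N → ZMod 2) → I → ZMod p) (w : Fin N → ZMod 2) (X : T) :
    ZMod p := ∑ i, φ X i * ψ w i

open Classical in
/-- The function. -/
noncomputable def gg (j : Fin N ⊕ T → Fin n) (φ : T → I → ZMod p)
    (ψ : (Fin N → ZMod 2) → I → ZMod p) (x : Fin n → ZMod 2) : Bool :=
  decide (∀ X : T, q2 j x X ≠ 0 → rh φ ψ (q1 j x) X = 0)

/-- lift a bit to `ZMod p` -/
def lf (p : ℕ) (t : ZMod 2) : ZMod p := if t = 0 then 0 else 1

theorem lf_add_one (t : ZMod 2) : lf p (t + 1) = 1 - lf p t := by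
  have : t = 0 ∨ t = 1 := by revert t; decide
  rcases this with rfl | rfl
  · simp [lf]
  · have h : (1 : ZMod 2) + 1 = 0 := by decide
    simp [lf, h]

theorem lf_sub (a b : ZMod 2) (h : a ≠ b) : lf p a - lf p b = 1 ∨ lf p a - lf p b = -1 := by
  have : (a = 0 ∧ b = 1) ∨ (a = 1 ∧ b = 0) := by revert a b; decide
  rcases this with ⟨rfl, rfl⟩ | ⟨rfl, rfl⟩
  · right; simp [lf]
  · left; simp [lf]

/-- the sums sent by Alice -/
def msg (φ : T → I → ZMod p) (u : T → ZMod 2) (i : I) : ZMod p := ∑ X : T, φ X i * lf p (u X)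

/-- Bob's value computed from the message -/
def bobv (ψ : (Fin N → ZMod 2) → I → ZMod p) (w : Fin N → ZMod 2) (m : I → ZMod p) : ZMod p :=
  ∑ i, ψ w i * m i

theorem bobv_msg (φ : T → I → ZMod p) (ψ : (Fin N → ZMod 2) → I → ZMod p) (w : Fin N → ZMod 2)
    (u : T → ZMod 2) : bobv ψ w (msg φ u) = ∑ X : T, rh φ ψ w X * lf p (u X) := by
  unfold bobv msg rh
  simp only [Finset.mul_sum, Finset.sum_mul]
  rw [Finset.sum_comm]
  refine Finset.sum_congr rfl fun X _ => Finset.sum_congr rfl fun i _ => ?_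
  ring

/-- the check -/
def chk (φ : T → I → ZMod p) (ψ : (Fin N → ZMod 2) → I → ZMod p) (w : Fin N → ZMod 2)
    (u v : T → ZMod 2) : Prop :=
  (∑ X : T, rh φ ψ w X * lf p (v X)) = ∑ X : T, rh φ ψ w X * lf p (u X)

theorem chk_yes (φ : T → I → ZMod p) (ψ : (Fin N → ZMod 2) → I → ZMod p) (w : Fin N → ZMod 2)
    (x y r : T → ZMod 2) (h : ∀ X : T, (x + y) X ≠ 0 → rh φ ψ w X = 0) :
    chk φ ψ w (x + r) (y + r) := by
  unfold chk
  refine Finset.sum_congr rfl fun X _ => ?_
  by_cases hX : (x + y) X = 0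
  · have : x X = y X := by
      have h1 : x X + y X = 0 := hX
      generalize x X = a at h1 ⊢
      generalize y X = b at h1 ⊢
      revert a b; decide
    simp [this]
  · rw [h X hX]; simp

/-- unit vector -/
def sg [DecidableEq T] (X0 : T) : T → ZMod 2 := fun X => if X = X0 then 1 else 0

theorem sg_self [DecidableEq T] (X0 : T) : sg X0 X0 = 1 := if_pos rfl

theorem sg_ne [DecidableEq T] {X0 X : T} (h : X ≠ X0) : sg X0 X = 0 := if_neg h

theorem chk_flip [DecidableEq T] [Fact p.Prime] (hp : p ≠ 2) (φ : T → I → ZMod p)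
    (ψ : (Fin N → ZMod 2) → I → ZMod p) (w : Fin N → ZMod 2) (x y r : T → ZMod 2) (X0 : T)
    (hX : (x + y) X0 ≠ 0) (hw : rh φ ψ w X0 ≠ 0) (h : chk φ ψ w (x + r) (y + r)) :
    ¬ chk φ ψ w (x + (r + sg X0)) (y + (r + sg X0)) := by
  intro h'
  unfold chk at h h'
  have key : (∑ X : T, rh φ ψ w X * lf p ((y + (r + sg X0)) X) -
      ∑ X : T, rh φ ψ w X * lf p ((x + (r + sg X0)) X)) -
      (∑ X : T, rh φ ψ w X * lf p ((y + r) X) - ∑ X : T, rh φ ψ w X * lf p ((x + r) X)) =
      rh φ ψ w X0 * ((lf p ((y + r) X0 + 1) - lf p ((x + r) X0 + 1)) -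
        (lf p ((y + r) X0) - lf p ((x + r) X0))) := by
    rw [← Finset.sum_sub_distrib, ← Finset.sum_sub_distrib, ← Finset.sum_sub_distrib]
    rw [Finset.sum_eq_single X0]
    · have e1 : (y + (r + sg X0)) X0 = (y + r) X0 + 1 := by
        simp only [Pi.add_apply, sg_self, add_assoc]
      have e2 : (x + (r + sg X0)) X0 = (x + r) X0 + 1 := by
        simp only [Pi.add_apply, sg_self, add_assoc]
      rw [e1, e2]; ring
    · intro X _ hne
      have e1 : (y + (r + sg X0)) X = (y + r) X := by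
        simp only [Pi.add_apply, sg_ne hne, add_zero]
      have e2 : (x + (r + sg X0)) X = (x + r) X := by
        simp only [Pi.add_apply, sg_ne hne, add_zero]
      rw [e1, e2]; ring
    · intro hh; exact absurd (Finset.mem_univ _) hh
  rw [h, h', sub_self, sub_self, sub_self] at key
  have h2 := (mul_eq_zero.1 key.symm).resolve_left hw
  rw [lf_add_one, lf_add_one] at h2
  have h3 : (x + r) X0 ≠ (y + r) X0 := by
    intro he
    have he' : x X0 + r X0 = y X0 + r X0 := he
    have he2 : x X0 = y X0 := add_right_cancel he'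
    apply hX
    show x X0 + y X0 = 0
    rw [he2]
    generalize y X0 = b
    revert b; decide
  have h4 : (2 : ZMod p) * (lf p ((x + r) X0) - lf p ((y + r) X0)) = 0 := by
    linear_combination h2
  have h20 : (2 : ZMod p) ≠ 0 := by
    intro h0
    have h1 : ((2 : ℕ) : ZMod p) = 0 := by exact_mod_cast h0
    rw [ZMod.natCast_eq_zero_iff] at h1
    exact hp ((Nat.prime_dvd_prime_iff_eq (Fact.out) Nat.prime_two).1 h1)
  have h5 := (mul_eq_zero.1 h4).resolve_left h20
  rcases lf_sub (p := p) _ _ h3 with h6 | h6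
  · rw [h5] at h6
    exact zero_ne_one h6
  · rw [h5] at h6
    have : (1 : ZMod p) = 0 := by linear_combination h6
    exact one_ne_zero this

open Classical in
theorem chk_no [Fact p.Prime] (hp : p ≠ 2) (φ : T → I → ZMod p)
    (ψ : (Fin N → ZMod 2) → I → ZMod p) (w : Fin N → ZMod 2) (x y : T → ZMod 2) (X0 : T)
    (hX : (x + y) X0 ≠ 0) (hw : rh φ ψ w X0 ≠ 0) :
    2 * (Finset.univ.filter fun r : T → ZMod 2 => chk φ ψ w (x + r) (y + r)).card ≤
      Fintype.card (T → ZMod 2) := by
  set P := Finset.univ.filter fun r : T → ZMod 2 => chk φ ψ w (x + r) (y + r) with hP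
  have hinj : Function.Injective fun r : T → ZMod 2 => r + sg X0 :=
    add_left_injective _
  have hdisj : Disjoint P (P.image fun r => r + sg X0) := by
    rw [Finset.disjoint_left]
    intro r hr hr'
    rw [Finset.mem_image] at hr'
    obtain ⟨s, hs, rfl⟩ := hr'
    rw [hP, Finset.mem_filter] at hr hs
    exact chk_flip hp φ ψ w x y s X0 hX hw hs.2 hr.2
  have := Finset.card_le_univ (P ∪ P.image fun r => r + sg X0)
  rw [Finset.card_union_of_disjoint hdisj, Finset.card_image_of_injective _ hinj] at this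
  omega

open Classical in
theorem hasOneWay_gg [Fact p.Prime] (hp : p ≠ 2) (j : Fin N ⊕ T → Fin n) (φ : T → I → ZMod p)
    (ψ : (Fin N → ZMod 2) → I → ZMod p) (c : ℕ)
    (hc : 2 ^ N * (p ^ Fintype.card I * p ^ Fintype.card I) ≤ 2 ^ c) :
    HasOneWay (xorFn (gg j φ ψ)) c := by
  classical
  let R := T → ZMod 2
  let M := (Fin N → ZMod 2) × ((I → ZMod p) × (I → ZMod p))
  have hcard : Fintype.card M ≤ 2 ^ c := by
    have e : Fintype.card M = 2 ^ N * (p ^ Fintype.card I * p ^ Fintype.card I) := by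
      simp [M, Fintype.card_prod, ZMod.card]
    rw [e]
    exact hc
  have hpos : 0 < Fintype.card (R × R) := Fintype.card_pos
  have hposR : (0 : ℝ) < Fintype.card (R × R) := by exact_mod_cast hpos
  refine hasOneWay_of_msg (M := M) (xorFn (gg j φ ψ)) c hcard (R × R)
    (fun _ => 1 / (Fintype.card (R × R) : ℝ))
    (fun ω x => (q1 j x, (msg φ (q2 j x + ω.1), msg φ (q2 j x + ω.2))))
    (fun ω m y => decide (
      (∑ X : T, rh φ ψ (m.1 + q1 j y) X * lf p ((q2 j y + ω.1) X)) =
        bobv ψ (m.1 + q1 j y) m.2.1 ∧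
      (∑ X : T, rh φ ψ (m.1 + q1 j y) X * lf p ((q2 j y + ω.2) X)) =
        bobv ψ (m.1 + q1 j y) m.2.2))
    (fun _ => by positivity) ?_ ?_
  · rw [Finset.sum_const, Finset.card_univ, nsmul_eq_mul]
    field_simp
  · intro x y
    have hB : ∀ ω : R × R, (decide (
        (∑ X : T, rh φ ψ (q1 j x + q1 j y) X * lf p ((q2 j y + ω.1) X)) =
          bobv ψ (q1 j x + q1 j y) (msg φ (q2 j x + ω.1)) ∧
        (∑ X : T, rh φ ψ (q1 j x + q1 j y) X * lf p ((q2 j y + ω.2) X)) =
          bobv ψ (q1 j x + q1 j y) (msg φ (q2 j x + ω.2)))) =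
        decide (chk φ ψ (q1 j x + q1 j y) (q2 j x + ω.1) (q2 j y + ω.1) ∧
          chk φ ψ (q1 j x + q1 j y) (q2 j x + ω.2) (q2 j y + ω.2)) := by
      intro ω
      rw [bobv_msg φ, bobv_msg φ]
      exact decide_eq_decide.2 Iff.rfl
    simp only [hB]
    rw [sum_ite_const]
    by_cases hf : ∀ X : T, q2 j (x + y) X ≠ 0 → rh φ ψ (q1 j (x + y)) X = 0
    · have h1 : xorFn (gg j φ ψ) x y = true := by
        unfold xorFn gg
        exact decide_eq_true hf
      have h2 : (Finset.univ.filter fun ω : R × R =>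
          decide (chk φ ψ (q1 j x + q1 j y) (q2 j x + ω.1) (q2 j y + ω.1) ∧
          chk φ ψ (q1 j x + q1 j y) (q2 j x + ω.2) (q2 j y + ω.2)) =
            xorFn (gg j φ ψ) x y) = Finset.univ := by
        rw [Finset.filter_eq_self]
        intro ω _
        rw [h1]
        exact decide_eq_true ⟨chk_yes _ _ _ _ _ _ hf, chk_yes _ _ _ _ _ _ hf⟩
      rw [h2, Finset.card_univ]
      rw [mul_one_div_cancel hposR.ne']
      norm_num
    · have h1 : xorFn (gg j φ ψ) x y = false := by
        unfold xorFn gg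
        exact decide_eq_false hf
      push Not at hf
      obtain ⟨X0, hX, hw⟩ := hf
      set P := Finset.univ.filter fun r : R =>
        chk φ ψ (q1 j x + q1 j y) (q2 j x + r) (q2 j y + r) with hP
      have hP2 : 2 * P.card ≤ Fintype.card R := chk_no hp _ _ _ _ _ X0 hX hw
      have h2 : (Finset.univ.filter fun ω : R × R =>
          decide (chk φ ψ (q1 j x + q1 j y) (q2 j x + ω.1) (q2 j y + ω.1) ∧
          chk φ ψ (q1 j x + q1 j y) (q2 j x + ω.2) (q2 j y + ω.2)) =
            xorFn (gg j φ ψ) x y) = (P ×ˢ P)ᶜ := by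
        ext ω
        rw [h1]
        simp [hP, Finset.mem_product]
      rw [h2, Finset.card_compl, Finset.card_product]
      have hcc : Fintype.card (R × R) = Fintype.card R * Fintype.card R := Fintype.card_prod _ _
      have h3 : 4 * (P.card * P.card) ≤ Fintype.card (R × R) := by
        rw [hcc]
        calc 4 * (P.card * P.card) = (2 * P.card) * (2 * P.card) := by ring
          _ ≤ _ := Nat.mul_le_mul hP2 hP2
      have h4 : P.card * P.card ≤ Fintype.card (R × R) := by omega
      rw [Nat.cast_sub h4]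
      have h5 : (4 : ℝ) * ((P.card * P.card : ℕ) : ℝ) ≤ (Fintype.card (R × R) : ℝ) := by
        exact_mod_cast h3
      rw [mul_one_div, le_div_iff₀ hposR]
      linarith

/-! ### The lower bound for linear sketches -/

/-- put together an input -/
noncomputable def inp (j : Fin N ⊕ T → Fin n) (w : Fin N → ZMod 2) (z : T → ZMod 2) :
    Fin n → ZMod 2 := Function.extend j (Sum.elim w z) 0

theorem q1_inp {j : Fin N ⊕ T → Fin n} (hj : Function.Injective j) (w : Fin N → ZMod 2)
    (z : T → ZMod 2) : q1 j (inp j w z) = w := by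
  funext a
  unfold q1 inp
  rw [hj.extend_apply]
  rfl

theorem q2_inp {j : Fin N ⊕ T → Fin n} (hj : Function.Injective j) (w : Fin N → ZMod 2)
    (z : T → ZMod 2) : q2 j (inp j w z) = z := by
  funext a
  unfold q2 inp
  rw [hj.extend_apply]
  rfl

theorem inp_add {j : Fin N ⊕ T → Fin n} (hj : Function.Injective j) (w w' : Fin N → ZMod 2)
    (z z' : T → ZMod 2) : inp j (w + w') (z + z') = inp j w z + inp j w' z' := by
  funext i
  rw [Pi.add_apply]
  unfold inp
  by_cases h : ∃ s, j s = i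
  · obtain ⟨s, rfl⟩ := h
    rw [hj.extend_apply, hj.extend_apply, hj.extend_apply]
    rcases s with s | s <;> rfl
  · rw [Function.extend_apply' _ _ _ h, Function.extend_apply' _ _ _ h,
      Function.extend_apply' _ _ _ h]
    simp

/-- the embedding of the second part -/
noncomputable def em {j : Fin N ⊕ T → Fin n} (hj : Function.Injective j) :
    (T → ZMod 2) →ₗ[ZMod 2] (Fin n → ZMod 2) where
  toFun z := inp j 0 z
  map_add' x y := by
    rw [← inp_add hj, add_zero]
  map_smul' c x := by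
    have : c = 0 ∨ c = 1 := by revert c; decide
    rcases this with rfl | rfl
    · rw [zero_smul, RingHom.id_apply, zero_smul]
      have h := inp_add hj (0 : Fin N → ZMod 2) 0 (0 : T → ZMod 2) 0
      rw [add_zero, add_zero] at h
      exact left_eq_add.1 h
    · rw [one_smul, RingHom.id_apply, one_smul]

theorem inp_eq {j : Fin N ⊕ T → Fin n} (hj : Function.Injective j) (w : Fin N → ZMod 2)
    (z : T → ZMod 2) : inp j w z = inp j w 0 + em hj z := by
  show inp j w z = inp j w 0 + inp j 0 z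
  rw [← inp_add hj, add_zero, zero_add]

variable (φ : T → I → ZMod p) (ψ : (Fin N → ZMod 2) → I → ZMod p) (pt : T → Fin N → ZMod 2)

/-- inputs with value `1` -/
def Yw (w : T) : Submodule (ZMod 2) (T → ZMod 2) where
  carrier := {y | ∀ X : T, rh φ ψ (pt w) X ≠ 0 → y X = 0}
  zero_mem' := fun _ _ => rfl
  add_mem' := by
    intro a b ha hb X hX
    show a X + b X = 0
    rw [ha X hX, hb X hX, add_zero]
  smul_mem' := by
    intro c a ha X hX
    show c * a X = 0
    rw [ha X hX, mul_zero]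

variable {j : Fin N ⊕ T → Fin n} (hj : Function.Injective j)

include hj in
theorem gg_yes (w : T) (y : T → ZMod 2) (hy : y ∈ Yw φ ψ pt w) :
    gg j φ ψ (inp j (pt w) y) = true := by
  unfold gg
  refine decide_eq_true fun X hX => ?_
  rw [q2_inp hj] at hX
  rw [q1_inp hj]
  by_contra h
  exact hX (hy X h)

variable [DecidableEq T]

include hj in
theorem gg_no (w : T) (hw : rh φ ψ (pt w) w ≠ 0) (y : T → ZMod 2) (hy : y ∈ Yw φ ψ pt w) :
    gg j φ ψ (inp j (pt w) (y + sg w)) = false := by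
  unfold gg
  refine decide_eq_false fun h => ?_
  have h1 := h w (by
    rw [q2_inp hj, Pi.add_apply, hy w hw, sg_self]; decide)
  rw [q1_inp hj] at h1
  exact hw h1

/-- `w` is good for the sketch `S` -/
def Good {k : ℕ} (S : Fin k → Finset (Fin n)) (w : T) : Prop :=
  ∃ γ : Fin k → ZMod 2, (∀ X : T, rh φ ψ (pt w) X = 0 → ∑ i, γ i * Lm S (em hj (sg X)) i = 0) ∧
    ∑ i, γ i * Lm S (em hj (sg w)) i = 1

theorem bad_exists {k : ℕ} (S : Fin k → Finset (Fin n)) (w : T)
    (h : ¬ Good φ ψ pt hj S w) : ∃ y ∈ Yw φ ψ pt w, Lm S (em hj y) = Lm S (em hj (sg w)) := by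
  by_contra hno
  apply h
  have hv : Lm S (em hj (sg w)) ∉ (Yw φ ψ pt w).map ((Lm S).comp (em hj)) := by
    rintro ⟨y, hy, e⟩
    exact hno ⟨y, hy, e⟩
  obtain ⟨f, hf1, hf2⟩ := Submodule.exists_le_ker_of_notMem hv
  have hrep : ∀ v : Fin k → ZMod 2, f v = ∑ i, f (Pi.single i 1) * v i := by
    intro v
    conv_lhs => rw [pi_eq_sum_univ v]
    rw [map_sum]
    refine Finset.sum_congr rfl fun j _ => ?_
    rw [map_smul, smul_eq_mul, mul_comm]
    congr 2
    funext i
    by_cases hi : j = i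
    · subst hi; simp
    · simp [hi, Ne.symm hi]
  refine ⟨fun i => f (Pi.single i 1), fun X hX => ?_, ?_⟩
  · rw [← hrep]
    have hm : sg X ∈ Yw φ ψ pt w := by
      intro X' hX'
      refine sg_ne ?_
      rintro rfl
      exact hX' hX
    exact hf2 ⟨sg X, hm, rfl⟩
  · rw [← hrep]
    generalize f (Lm S (em hj (sg w))) = t at hf1
    revert t; decide

open Classical in
theorem card_good_le {k : ℕ} (S : Fin k → Finset (Fin n)) {Q : Type} [Fintype Q]
    (α β : T → Q → ZMod 2) (hd : ∀ w, ∑ m, α w m * β w m = 1)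
    (ho : ∀ w X, w ≠ X → rh φ ψ (pt w) X ≠ 0 → ∑ m, α w m * β X m = 0) :
    (Finset.univ.filter fun w : T => Good φ ψ pt hj S w).card ≤ k * Fintype.card Q := by
  set G := Finset.univ.filter fun w : T => Good φ ψ pt hj S w with hG
  have hg : ∀ w : G, Good φ ψ pt hj S w.1 := fun w => (Finset.mem_filter.1 w.2).2
  choose γ h0 h1 using hg
  let V : Matrix G (Fin k × Q) (ZMod 2) := fun w i => γ w i.1 * α w.1 i.2
  let U : Matrix (Fin k × Q) G (ZMod 2) := fun i X => Lm S (em hj (sg X.1)) i.1 * β X.1 i.2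
  have hVU : V * U = 1 := by
    ext w X
    rw [Matrix.mul_apply]
    have e : ∑ i : Fin k × Q, V w i * U i X =
        (∑ j, γ w j * Lm S (em hj (sg X.1)) j) * (∑ m, α w.1 m * β X.1 m) := by
      rw [Fintype.sum_prod_type, Finset.sum_mul]
      refine Finset.sum_congr rfl fun j _ => ?_
      rw [Finset.mul_sum]
      refine Finset.sum_congr rfl fun a _ => ?_
      show γ w j * α w.1 a * (Lm S (em hj (sg X.1)) j * β X.1 a) = _
      ring
    rw [e, Matrix.one_apply]
    by_cases hwX : w = X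
    · subst hwX
      rw [if_pos rfl, h1, hd, one_mul]
    · rw [if_neg hwX]
      by_cases hr : rh φ ψ (pt w.1) X.1 = 0
      · rw [h0 w X.1 hr, zero_mul]
      · rw [ho w.1 X.1 (fun h => hwX (Subtype.ext h)) hr, mul_zero]
  have hr : (1 : Matrix G G (ZMod 2)).rank = Fintype.card G := Matrix.rank_one
  have hr2 : (V * U).rank ≤ V.rank := Matrix.rank_mul_le_left V U
  have hr3 : V.rank ≤ Fintype.card (Fin k × Q) := Matrix.rank_le_card_width V
  rw [hVU, hr] at hr2
  have h6 : Fintype.card (Fin k × Q) = k * Fintype.card Q := by simp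
  have h7 : Fintype.card G = G.card := Fintype.card_coe G
  omega

open Classical in
/-- count of the correct answers on a pair of inputs -/
noncomputable def cnt {k : ℕ} (S : Fin k → Finset (Fin n))
    (g : (Fin k → ZMod 2) → Bool) (w : T) : ℕ :=
  ∑ y : Yw φ ψ pt w, ((if g (Lm S (inp j (pt w) y.1)) = true then 1 else 0) +
    (if g (Lm S (inp j (pt w) (y.1 + sg w))) = false then 1 else 0))

theorem cnt_le {k : ℕ} (S : Fin k → Finset (Fin n))
    (g : (Fin k → ZMod 2) → Bool) (w : T) :
    cnt φ ψ pt (j := j) S g w ≤ 2 * Nat.card (Yw φ ψ pt w) := by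
  classical
  unfold cnt
  rw [Nat.card_eq_fintype_card, ← Finset.card_univ, mul_comm, ← smul_eq_mul, ← Finset.sum_const]
  refine Finset.sum_le_sum fun y _ => ?_
  split_ifs <;> norm_num

theorem cnt_bad {k : ℕ} (S : Fin k → Finset (Fin n))
    (g : (Fin k → ZMod 2) → Bool) (w : T) (h : ¬ Good φ ψ pt hj S w) :
    cnt φ ψ pt (j := j) S g w = Nat.card (Yw φ ψ pt w) := by
  classical
  obtain ⟨y0, hy0, he⟩ := bad_exists φ ψ pt hj S w h
  unfold cnt
  rw [Finset.sum_add_distrib]
  have e1 : ∀ y : Yw φ ψ pt w, Lm S (inp j (pt w) (y.1 + sg w)) =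
      Lm S (inp j (pt w) ((Equiv.addRight (⟨y0, hy0⟩ : Yw φ ψ pt w)) y).1) := by
    intro y
    show Lm S (inp j (pt w) (y.1 + sg w)) = Lm S (inp j (pt w) (y.1 + y0))
    rw [inp_eq hj, inp_eq hj (pt w) (y.1 + y0), map_add, map_add, map_add, map_add, map_add,
      map_add, he]
  have e2 : (∑ y : Yw φ ψ pt w,
      if g (Lm S (inp j (pt w) (y.1 + sg w))) = false then 1 else 0) =
      ∑ y : Yw φ ψ pt w, if g (Lm S (inp j (pt w) y.1)) = false then 1 else 0 := by
    simp only [e1]
    exact Equiv.sum_comp (Equiv.addRight (⟨y0, hy0⟩ : Yw φ ψ pt w))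
      (fun y : Yw φ ψ pt w => if g (Lm S (inp j (pt w) y.1)) = false then 1 else 0)
  rw [e2, ← Finset.sum_add_distrib, Nat.card_eq_fintype_card, ← Finset.card_univ,
    Finset.card_eq_sum_ones]
  refine Finset.sum_congr rfl fun y _ => ?_
  cases g (Lm S (inp j (pt w) y.1)) <;> simp

include hj in
theorem sketch_bound {k : ℕ} (h : HasSketch (gg j φ ψ) k) {Q : Type} [Fintype Q]
    (α β : T → Q → ZMod 2) (hd : ∀ w, ∑ m, α w m * β w m = 1)
    (ho : ∀ w X, w ≠ X → rh φ ψ (pt w) X ≠ 0 → ∑ m, α w m * β X m = 0)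
    (hw0 : ∀ w, rh φ ψ (pt w) w ≠ 0) : Fintype.card T ≤ 3 * (k * Fintype.card Q) := by
  classical
  obtain ⟨p, g, hp0, hp1, hs⟩ := h
  -- per w
  have hw : ∀ w : T, (1 : ℝ) / 3 ≤ ∑ S, if Good φ ψ pt hj S w then p S else 0 := by
    intro w
    have hcard : (0 : ℝ) < Nat.card (Yw φ ψ pt w) := by
      have : 0 < Nat.card (Yw φ ψ pt w) := Nat.card_pos
      exact_mod_cast this
    have h1 : (4 : ℝ) / 3 * Nat.card (Yw φ ψ pt w) ≤
        ∑ S, p S * cnt φ ψ pt (j := j) S (g S) w := by
      have h2 : ∀ y : Yw φ ψ pt w, (4 : ℝ) / 3 ≤ ∑ S, p S *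
          (((if g S (Lm S (inp j (pt w) y.1)) = true then 1 else 0) +
          (if g S (Lm S (inp j (pt w) (y.1 + sg w))) = false then 1 else 0) : ℕ) : ℝ) := by
        intro y
        have ha := hs (inp j (pt w) y.1)
        have hb := hs (inp j (pt w) (y.1 + sg w))
        rw [gg_yes φ ψ pt hj w y.1 y.2] at ha
        rw [gg_no φ ψ pt hj w (hw0 w) y.1 y.2] at hb
        have hc : ∑ S, p S *
          (((if g S (Lm S (inp j (pt w) y.1)) = true then 1 else 0) +
          (if g S (Lm S (inp j (pt w) (y.1 + sg w))) = false then 1 else 0) : ℕ) : ℝ) =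
          (∑ S, if g S (fun i => chi (S i) (inp j (pt w) y.1)) = true then p S else 0) +
          (∑ S, if g S (fun i => chi (S i) (inp j (pt w) (y.1 + sg w))) = false
            then p S else 0) := by
          rw [← Finset.sum_add_distrib]
          refine Finset.sum_congr rfl fun S _ => ?_
          have q1 : (Lm S (inp j (pt w) y.1)) = fun i => chi (S i) (inp j (pt w) y.1) := rfl
          have q2 : (Lm S (inp j (pt w) (y.1 + sg w))) =
            fun i => chi (S i) (inp j (pt w) (y.1 + sg w)) := rfl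
          rw [q1, q2]
          split_ifs <;> push_cast <;> ring
        rw [hc]
        linarith
      have h3 : ∑ S, p S * (cnt φ ψ pt (j := j) S (g S) w : ℝ) =
          ∑ y : Yw φ ψ pt w, ∑ S, p S *
          (((if g S (Lm S (inp j (pt w) y.1)) = true then 1 else 0) +
          (if g S (Lm S (inp j (pt w) (y.1 + sg w))) = false then 1 else 0) : ℕ) : ℝ) := by
        rw [Finset.sum_comm]
        refine Finset.sum_congr rfl fun S _ => ?_
        rw [← Finset.mul_sum]
        congr 1
        unfold cnt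
        rw [Nat.cast_sum]
      rw [h3, Nat.card_eq_fintype_card, ← Finset.card_univ, mul_comm, ← nsmul_eq_mul,
        ← Finset.sum_const]
      exact Finset.sum_le_sum fun y _ => h2 y
    have h4 : ∑ S, p S * (cnt φ ψ pt (j := j) S (g S) w : ℝ) ≤
        ∑ S, (p S + if Good φ ψ pt hj S w then p S else 0) * Nat.card (Yw φ ψ pt w) := by
      refine Finset.sum_le_sum fun S _ => ?_
      by_cases hG : Good φ ψ pt hj S w
      · rw [if_pos hG]
        have : (cnt φ ψ pt (j := j) S (g S) w : ℝ) ≤ 2 * Nat.card (Yw φ ψ pt w) := by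
          exact_mod_cast cnt_le φ ψ pt S (g S) w
        nlinarith [hp0 S]
      · rw [if_neg hG, cnt_bad φ ψ pt hj S (g S) w hG, add_zero]
    rw [← Finset.sum_mul, Finset.sum_add_distrib, hp1] at h4
    have h5 := h1.trans h4
    have h6 := le_of_mul_le_mul_right h5 hcard
    linarith
  -- sum over w
  have h7 : (Fintype.card T : ℝ) * (1 / 3) ≤
      ∑ w : T, ∑ S, if Good φ ψ pt hj S w then p S else 0 := by
    rw [← Finset.card_univ, ← nsmul_eq_mul, ← Finset.sum_const]
    exact Finset.sum_le_sum fun w _ => hw w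
  have h8 : ∑ w : T, ∑ S, (if Good φ ψ pt hj S w then p S else 0) ≤
      ((k * Fintype.card Q : ℕ) : ℝ) := by
    rw [Finset.sum_comm]
    calc ∑ S, ∑ w : T, (if Good φ ψ pt hj S w then p S else 0)
        = ∑ S, p S * ((Finset.univ.filter fun w : T => Good φ ψ pt hj S w).card : ℝ) := by
          refine Finset.sum_congr rfl fun S _ => ?_
          rw [sum_ite_const, mul_comm]
      _ ≤ ∑ S, p S * ((k * Fintype.card Q : ℕ) : ℝ) := by
          refine Finset.sum_le_sum fun S _ => mul_le_mul_of_nonneg_left ?_ (hp0 S)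
          exact_mod_cast card_good_le φ ψ pt hj S α β hd ho
      _ = _ := by rw [← Finset.sum_mul, hp1, one_mul]
  have h9 := h7.trans h8
  have h10 : (Fintype.card T : ℝ) ≤ ((3 * (k * Fintype.card Q) : ℕ) : ℝ) := by
    push_cast at h9 ⊢
    linarith
  exact_mod_cast h10

end Pool.Agent.Y601.SK
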