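import Pool.Agent.Y601.SK.Inst

/-!
# Asymptotics
-/

set_option autoImplicit false

open Finset

namespace Pool.Agent.Y601.SK

open Pool.Agent.Helper12.SketchSep (chi HasSketch HasOneWay xorFn Rlin Rone hasSketch_self)

theorem choose_double {N j : ℕ} (h : 2 * (j + 1) ≤ N - j) : 2 * N.choose j ≤ N.choose (j + 1) := by
  have h1 := Nat.choose_succ_right_eq N j
  have h2 : (2 * N.choose j) * (j + 1) ≤ N.choose (j + 1) * (j + 1) := by
    rw [h1]
    calc (2 * N.choose j) * (j + 1) = N.choose j * (2 * (j + 1)) := by ring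
      _ ≤ N.choose j * (N - j) := Nat.mul_le_mul_left _ h
  exact Nat.le_of_mul_le_mul_right h2 (Nat.succ_pos j)

theorem choose_mono {N j : ℕ} (h : j + 1 ≤ N - j) : N.choose j ≤ N.choose (j + 1) := by
  have h1 := Nat.choose_succ_right_eq N j
  have h2 : N.choose j * (j + 1) ≤ N.choose (j + 1) * (j + 1) := by
    rw [h1]
    exact Nat.mul_le_mul_left _ h
  exact Nat.le_of_mul_le_mul_right h2 (Nat.succ_pos j)

theorem choose_pow (q : ℕ) (hq : 1 ≤ q) : ∀ i : ℕ, i ≤ q →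
    2 ^ i * (6 * q).choose (q - 1) ≤ (6 * q).choose (q - 1 + i) := by
  intro i
  induction i with
  | zero => intro _; simp
  | succ i ih =>
    intro hi
    have h1 := ih (by omega)
    have h2 : 2 * (6 * q).choose (q - 1 + i) ≤ (6 * q).choose (q - 1 + i + 1) :=
      choose_double (by omega)
    calc 2 ^ (i + 1) * (6 * q).choose (q - 1) = 2 * (2 ^ i * (6 * q).choose (q - 1)) := by
          rw [pow_succ]; ring
      _ ≤ 2 * (6 * q).choose (q - 1 + i) := Nat.mul_le_mul_left _ h1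
      _ ≤ _ := h2

theorem add_choose_le {N t : ℕ} (ht : t ≠ 1) (ht2 : t ≤ N) (hN : 1 ≤ N) :
    N + N.choose t ≤ 2 ^ N := by
  have h1 : ∑ i ∈ ({1, t} : Finset ℕ), N.choose i ≤ ∑ i ∈ Finset.range (N + 1), N.choose i := by
    refine Finset.sum_le_sum_of_subset ?_
    intro i hi
    rw [Finset.mem_insert, Finset.mem_singleton] at hi
    rw [Finset.mem_range]
    omega
  rw [Nat.sum_range_choose, Finset.sum_pair (Ne.symm ht), Nat.choose_one_right] at h1
  exact h1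

theorem rlin_spec {n : ℕ} (f : (Fin n → ZMod 2) → Bool) : HasSketch f (Rlin f) :=
  Nat.sInf_mem (s := {k | HasSketch f k}) ⟨_, hasSketch_self f⟩

/-- Logarithmic communication, but polynomial sketches. -/
theorem part1 (n : ℕ) (hn : 2 ^ 12 ≤ n) : ∃ f : (Fin n → ZMod 2) → Bool,
    Rone (xorFn f) ≤ 5 * Nat.log 2 n + 4 ∧ (n : ℝ) ^ (1 / 12 : ℝ) ≤ 3 * Rlin f := by
  have hn0 : n ≠ 0 := by omega
  set L := Nat.log 2 n with hL
  have hL12 : 12 ≤ L := Nat.le_log_of_pow_le (by norm_num) hn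
  have hLn : 2 ^ L ≤ n := Nat.pow_log_le_self 2 hn0
  have hLn2 : n < 2 ^ (L + 1) := Nat.lt_pow_succ_log_self (by norm_num) n
  set b := Nat.log 2 (L / 6) with hb
  have h6 : 2 ≤ L / 6 := by omega
  have hq1 : 2 ^ b ≤ L / 6 := Nat.pow_log_le_self 2 (by omega)
  have hq2 : L / 6 < 2 ^ (b + 1) := Nat.lt_pow_succ_log_self (by norm_num) _
  have hb1 : 1 ≤ b := Nat.le_log_of_pow_le (by norm_num) (by simpa using h6)
  have hq3 : 2 ≤ 2 ^ b := by
    calc 2 = 2 ^ 1 := by norm_num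
      _ ≤ 2 ^ b := Nat.pow_le_pow_right (by norm_num) hb1
  rw [pow_succ] at hq2
  set q := 2 ^ b with hq
  have hNL : 6 * q ≤ L := by omega
  have hL12q : L + 1 ≤ 12 * q := by omega
  obtain ⟨f, hf1, hf2⟩ := inst b 1 (6 * q) n 3 (5 * (6 * q) + 4) Nat.prime_three (by norm_num)
    (by norm_num) (by
      rw [← hq]
      calc 6 * q + (6 * q).choose ((1 + 1) * q - 1) ≤ 2 ^ (6 * q) :=
            add_choose_le (by omega) (by omega) (by omega)
        _ ≤ 2 ^ L := Nat.pow_le_pow_right (by norm_num) hNL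
        _ ≤ n := hLn) (by
      rw [pow_one]
      have h4 : (3 : ℕ) ^ (6 * q + 1) ≤ 4 ^ (6 * q + 1) := Nat.pow_le_pow_left (by norm_num) _
      calc 2 ^ (6 * q) * (3 ^ (6 * q + 1) * 3 ^ (6 * q + 1))
          ≤ 2 ^ (6 * q) * (4 ^ (6 * q + 1) * 4 ^ (6 * q + 1)) :=
            Nat.mul_le_mul_left _ (Nat.mul_le_mul h4 h4)
        _ = 2 ^ (5 * (6 * q) + 4) := by
            rw [show (4 : ℕ) = 2 ^ 2 by norm_num, ← pow_mul, ← pow_add, ← pow_add]
            congr 1; ring)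
  refine ⟨f, (Nat.sInf_le hf1).trans (by omega), ?_⟩
  have h1 := hf2 _ (rlin_spec f)
  rw [← hq] at h1
  have h2 := choose_pow q (by omega) q le_rfl
  have h3 : q - 1 + q = (1 + 1) * q - 1 := by omega
  rw [h3] at h2
  have h4 : 2 ^ q * (6 * q).choose (q - 1) ≤ (3 * Rlin f) * (6 * q).choose (q - 1) := by
    calc 2 ^ q * (6 * q).choose (q - 1) ≤ (6 * q).choose ((1 + 1) * q - 1) := h2
      _ ≤ 3 * (Rlin f * (6 * q).choose (q - 1)) := h1
      _ = (3 * Rlin f) * (6 * q).choose (q - 1) := by ring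
  have h5 : 2 ^ q ≤ 3 * Rlin f :=
    Nat.le_of_mul_le_mul_right h4 (Nat.choose_pos (by omega))
  have h6' : (2 : ℝ) ^ q ≤ 3 * Rlin f := by exact_mod_cast h5
  refine le_trans ?_ h6'
  have h7 : n ≤ 2 ^ (12 * q) := hLn2.le.trans (Nat.pow_le_pow_right (by norm_num) hL12q)
  have h8 : (n : ℝ) ≤ (2 : ℝ) ^ (12 * q) := by exact_mod_cast h7
  calc (n : ℝ) ^ (1 / 12 : ℝ) ≤ ((2 : ℝ) ^ (12 * q)) ^ (1 / 12 : ℝ) :=
        Real.rpow_le_rpow (by positivity) h8 (by norm_num)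
    _ = (2 : ℝ) ^ q := by
        rw [← Real.rpow_natCast, ← Real.rpow_mul (by norm_num), ← Real.rpow_natCast]
        congr 1
        push_cast
        ring

end Pool.Agent.Y601.SK
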