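import Pool.Agent.Y601.SK.Asy

/-!
# Almost linear sketches against polylogarithmic communication
-/

set_option autoImplicit false

open Finset

namespace Pool.Agent.Y601.SK

open Pool.Agent.Helper12.SketchSep (chi HasSketch HasOneWay xorFn Rlin Rone hasSketch_self)

theorem sq_le_two_pow : ∀ l : ℕ, 4 ≤ l → l * l ≤ 2 ^ l := by
  intro l hl
  induction l, hl using Nat.le_induction with
  | base => norm_num
  | succ l hl ih =>
    rw [pow_succ]
    nlinarith

theorem mul_log_le (K L : ℕ) (hL : 2 ^ (max K 4) ≤ L) : K * Nat.log 2 L ≤ L := by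
  have hL0 : L ≠ 0 := by
    intro h
    rw [h] at hL
    have : 0 < 2 ^ (max K 4) := by positivity
    omega
  have h1 : max K 4 ≤ Nat.log 2 L := Nat.le_log_of_pow_le (by norm_num) hL
  have h2 : 2 ^ Nat.log 2 L ≤ L := Nat.pow_log_le_self 2 hL0
  have h3 := sq_le_two_pow (Nat.log 2 L) (by omega)
  have h4 : K * Nat.log 2 L ≤ Nat.log 2 L * Nat.log 2 L := Nat.mul_le_mul_right _ (by omega)
  omega

theorem choose_lower {N t : ℕ} (ht : 1 ≤ t) : (N + 1 - t) ^ t ≤ t ^ t * N.choose t := by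
  calc (N + 1 - t) ^ t ≤ N.descFactorial t := Nat.pow_sub_le_descFactorial N t
    _ = Nat.factorial t * N.choose t := Nat.descFactorial_eq_factorial_mul_choose N t
    _ ≤ t ^ t * N.choose t := Nat.mul_le_mul_right _ (Nat.factorial_le_pow t)

/-- The choice of the parameters. -/
theorem core (d : ℕ) (hd : 1 ≤ d) : ∃ L₀ : ℕ, ∀ n : ℕ, L₀ ≤ Nat.log 2 n →
    ∃ b N : ℕ, 1 ≤ N ∧ N + N.choose ((d + 1) * 2 ^ b - 1) ≤ n ∧
      n ≤ 4 * N.choose ((d + 1) * 2 ^ b - 1) ∧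
      (N ^ (2 ^ b)) ^ d ≤ (N.choose ((d + 1) * 2 ^ b - 1)) ^ 4 ∧
      N ≤ (Nat.log 2 n) ^ (128 * (d + 1)) ∧
      2 ^ b - 1 ≤ N := by
  set A := 8 * (d + 1) with hA
  set K := A * (8 * (d + 1) ^ 2) with hK
  refine ⟨2 ^ (max K 4), fun n hn => ?_⟩
  set L := Nat.log 2 n with hL
  have hKL : K * Nat.log 2 L ≤ L := mul_log_le K L hn
  have h16 : 16 ≤ L := by
    calc 16 = 2 ^ 4 := by norm_num
      _ ≤ 2 ^ (max K 4) := Nat.pow_le_pow_right (by norm_num) (le_max_right _ _)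
      _ ≤ L := hn
  have hn0 : n ≠ 0 := by
    intro h
    rw [hL, h] at h16
    simp at h16
  have hLn : 2 ^ L ≤ n := Nat.pow_log_le_self 2 hn0
  have hLn2 : n < 2 ^ (L + 1) := Nat.lt_pow_succ_log_self (by norm_num) n
  set l := Nat.log 2 L with hl
  have hl4 : 4 ≤ l := Nat.le_log_of_pow_le (by norm_num) (by simpa using h16)
  have hlL : 2 ^ l ≤ L := Nat.pow_log_le_self 2 (by omega)
  have hlL2 : L < 2 ^ (l + 1) := Nat.lt_pow_succ_log_self (by norm_num) L
  have hApos : 0 < A * l := by positivity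
  set u := L / (A * l) with hu
  have hu1 : 8 * (d + 1) ^ 2 ≤ u := by
    rw [hu, Nat.le_div_iff_mul_le hApos]
    calc 8 * (d + 1) ^ 2 * (A * l) = K * l := by rw [hK]; ring
      _ ≤ L := hKL
  have hu2 : A * l * u ≤ L := Nat.mul_div_le L (A * l)
  have hu3 : L < A * l * (u + 1) := Nat.lt_mul_div_succ L hApos
  have hu0 : u ≠ 0 := by
    have : 0 < (d + 1) ^ 2 := by positivity
    omega
  set b := Nat.log 2 u with hb
  have hq1 : 2 ^ b ≤ u := Nat.pow_log_le_self 2 hu0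
  have hq2 : u < 2 ^ (b + 1) := Nat.lt_pow_succ_log_self (by norm_num) u
  rw [pow_succ] at hq2
  set q := 2 ^ b with hq
  have hqd : 4 * (d + 1) ^ 2 < q := by omega
  have hd2 : d + 1 ≤ (d + 1) ^ 2 := Nat.le_self_pow (by norm_num) _
  have hqd1 : d + 1 ≤ q := by omega
  have hq16 : 16 < q := by nlinarith
  set t := (d + 1) * q - 1 with ht
  have hdq : (d + 1) * q = d * q + q := by ring
  have hdq1 : q ≤ d * q := Nat.le_mul_of_pos_left q (by omega)
  have htq : q ≤ t := by omega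
  have htdq : d * q ≤ t := by omega
  have ht1 : t + 1 = (d + 1) * q := by omega
  have htsq : t + 1 ≤ q ^ 2 := by
    rw [ht1, sq]
    exact Nat.mul_le_mul_right _ hqd1
  -- the value at q²
  have hqL : q ≤ 2 ^ (l + 1) := by
    have : u ≤ L := Nat.div_le_self _ _
    omega
  have hP0 : q ^ 2 + (q ^ 2).choose t ≤ n := by
    have h1 : (q ^ 2).choose t ≤ (q ^ 2) ^ t := Nat.choose_le_pow _ _
    have h2 : q ^ 2 ≤ (q ^ 2) ^ t := Nat.le_self_pow (by omega) _
    have h3 : (q ^ 2) ^ t ≤ 2 ^ (L / 2) := by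
      calc (q ^ 2) ^ t = q ^ (2 * t) := by rw [← pow_mul]
        _ ≤ (2 ^ (l + 1)) ^ (2 * t) := Nat.pow_le_pow_left hqL _
        _ = 2 ^ ((l + 1) * (2 * t)) := by rw [← pow_mul]
        _ ≤ 2 ^ (L / 2) := by
          refine Nat.pow_le_pow_right (by norm_num) ?_
          rw [Nat.le_div_iff_mul_le (by norm_num)]
          have h4 : t ≤ (d + 1) * q := by omega
          have h5 : A * l * q ≤ L := (Nat.mul_le_mul_left _ hq1).trans hu2
          calc (l + 1) * (2 * t) * 2 ≤ (2 * l) * (2 * ((d + 1) * q)) * 2 := by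
                have : l + 1 ≤ 2 * l := by omega
                gcongr
            _ = A * l * q := by rw [hA]; ring
            _ ≤ L := h5
    calc q ^ 2 + (q ^ 2).choose t ≤ 2 * 2 ^ (L / 2) := by omega
      _ = 2 ^ (L / 2 + 1) := by rw [pow_succ]; ring
      _ ≤ 2 ^ L := Nat.pow_le_pow_right (by norm_num) (by omega)
      _ ≤ n := hLn
  have hqn : q ^ 2 ≤ n := by omega
  set N := Nat.findGreatest (fun N => N + N.choose t ≤ n) n with hN
  have hPN : N + N.choose t ≤ n :=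
    Nat.findGreatest_spec (P := fun N => N + N.choose t ≤ n) hqn hP0
  have hqN : q ^ 2 ≤ N := Nat.le_findGreatest hqn hP0
  have hN1 : 1 ≤ N := by omega
  have htN : t ≤ N := by omega
  have hCpos : 0 < N.choose t := Nat.choose_pos htN
  have hmax : n < N + 1 + (N + 1).choose t := by
    have h1 := Nat.findGreatest_is_greatest (P := fun N => N + N.choose t ≤ n) (n := n)
      (k := N + 1) (Nat.lt_succ_self N) (by omega)
    simpa using h1
  have h2t : 2 * t ≤ N + 1 := by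
    have h1 : 2 * (d + 1) * q ≤ q ^ 2 := by
      rw [sq]
      refine Nat.mul_le_mul_right _ ?_
      nlinarith
    have h2 : 2 * (t + 1) = 2 * (d + 1) * q := by rw [ht1]; ring
    omega
  have hC1 : (N + 1).choose t ≤ 2 * N.choose t := by
    obtain ⟨s, hs⟩ : ∃ s, t = s + 1 := ⟨t - 1, by omega⟩
    rw [hs, Nat.choose_succ_succ]
    have := choose_mono (N := N) (j := s) (by omega)
    show N.choose s + N.choose (s + 1) ≤ 2 * N.choose (s + 1)
    omega
  -- N^t ≤ C^4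
  have hkey : N * t ^ 4 ≤ (N + 1 - t) ^ 4 := by
    have h1 : N ≤ 2 * (N + 1 - t) := by omega
    have h2 : N ^ 4 ≤ (2 * (N + 1 - t)) ^ 4 := Nat.pow_le_pow_left h1 4
    have h3 : 16 * t ^ 4 ≤ N ^ 3 := by
      have h4 : t ^ 4 ≤ ((d + 1) * q) ^ 4 := Nat.pow_le_pow_left (by omega) 4
      have h5 : (q ^ 2) ^ 3 ≤ N ^ 3 := Nat.pow_le_pow_left hqN 3
      have h6 : (4 * (d + 1) ^ 2) ^ 2 ≤ q ^ 2 := Nat.pow_le_pow_left hqd.le 2
      calc 16 * t ^ 4 ≤ 16 * ((d + 1) * q) ^ 4 := Nat.mul_le_mul_left _ h4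
        _ = (4 * (d + 1) ^ 2) ^ 2 * q ^ 4 := by ring
        _ ≤ q ^ 2 * q ^ 4 := Nat.mul_le_mul_right _ h6
        _ = (q ^ 2) ^ 3 := by ring
        _ ≤ N ^ 3 := h5
    have h7 : 16 * (N * t ^ 4) ≤ 16 * (N + 1 - t) ^ 4 := by
      calc 16 * (N * t ^ 4) = N * (16 * t ^ 4) := by ring
        _ ≤ N * N ^ 3 := Nat.mul_le_mul_left _ h3
        _ = N ^ 4 := by ring
        _ ≤ (2 * (N + 1 - t)) ^ 4 := h2
        _ = 16 * (N + 1 - t) ^ 4 := by ring
    exact Nat.le_of_mul_le_mul_left h7 (by norm_num)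
  have hNt : N ^ t ≤ (N.choose t) ^ 4 := by
    have h1 := choose_lower (N := N) (t := t) (by omega)
    have h2 : ((N + 1 - t) ^ t) ^ 4 ≤ (t ^ t * N.choose t) ^ 4 := Nat.pow_le_pow_left h1 4
    have h3 : (N * t ^ 4) ^ t ≤ ((N + 1 - t) ^ 4) ^ t := Nat.pow_le_pow_left hkey t
    have h4 : (t ^ t) ^ 4 * N ^ t ≤ (t ^ t) ^ 4 * (N.choose t) ^ 4 := by
      calc (t ^ t) ^ 4 * N ^ t = (N * t ^ 4) ^ t := by
            rw [mul_pow, ← pow_mul, ← pow_mul, mul_comm t 4]; ring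
        _ ≤ ((N + 1 - t) ^ 4) ^ t := h3
        _ = ((N + 1 - t) ^ t) ^ 4 := by rw [← pow_mul, ← pow_mul, mul_comm]
        _ ≤ (t ^ t * N.choose t) ^ 4 := h2
        _ = (t ^ t) ^ 4 * (N.choose t) ^ 4 := by rw [mul_pow]
    have ht0 : 0 < t := by omega
    exact Nat.le_of_mul_le_mul_left h4 (by positivity)
  have hNC : N ≤ N.choose t := by
    have h1 : N ^ 4 ≤ (N.choose t) ^ 4 :=
      (Nat.pow_le_pow_right hN1 (by omega)).trans hNt
    exact (Nat.pow_le_pow_iff_left (by norm_num)).1 h1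
  refine ⟨b, N, hN1, hPN, ?_, ?_, ?_, ?_⟩
  · show n ≤ 4 * N.choose t
    omega
  · calc (N ^ (2 ^ b)) ^ d = N ^ (d * q) := by rw [← pow_mul, ← hq, mul_comm]
      _ ≤ N ^ t := Nat.pow_le_pow_right hN1 htdq
      _ ≤ _ := hNt
  · have h1 : N ≤ 2 ^ (l * (128 * (d + 1))) := by
      by_contra hcon
      push Not at hcon
      have h2 : (2 ^ (l * (128 * (d + 1)))) ^ t ≤ N ^ t := Nat.pow_le_pow_left hcon.le t
      have h3 : (N.choose t) ^ 4 ≤ n ^ 4 := Nat.pow_le_pow_left (by omega) 4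
      have h4 : n ^ 4 < (2 ^ (L + 1)) ^ 4 := Nat.pow_lt_pow_left hLn2 (by norm_num)
      have h5 : 2 ^ (l * (128 * (d + 1)) * t) < 2 ^ ((L + 1) * 4) := by
        rw [pow_mul 2 (l * (128 * (d + 1))) t, pow_mul 2 (L + 1) 4]
        exact lt_of_le_of_lt (h2.trans (hNt.trans h3)) h4
      have h6 := (Nat.pow_lt_pow_iff_right (by norm_num : 1 < 2)).1 h5
      have h7 : l * (128 * (d + 1)) * q ≤ l * (128 * (d + 1)) * t := Nat.mul_le_mul_left _ htq
      have h8 : A * l * (u + 1) ≤ A * l * (2 * q) := Nat.mul_le_mul_left _ (by omega)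
      have h9 : l * (128 * (d + 1)) * q = 8 * (A * l * (2 * q)) := by rw [hA]; ring
      omega
    calc N ≤ 2 ^ (l * (128 * (d + 1))) := h1
      _ = (2 ^ l) ^ (128 * (d + 1)) := by rw [pow_mul]
      _ ≤ L ^ (128 * (d + 1)) := Nat.pow_le_pow_left hlL _
  · show q - 1 ≤ N
    omega

end Pool.Agent.Y601.SK
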