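import Pool.Agent.Y601.SK.Asy2

/-!
# The final bounds
-/

set_option autoImplicit false

open Finset

namespace Pool.Agent.Y601.SK

open Pool.Agent.Helper12.SketchSep (chi HasSketch HasOneWay xorFn Rlin Rone hasSketch_self)

/-- Polylogarithmic communication, but almost linear sketches. -/
theorem part2 (ε : ℝ) (hε : 0 < ε) : ∃ C n₀ : ℕ, ∀ n : ℕ, n₀ ≤ n →
    ∃ f : (Fin n → ZMod 2) → Bool,
      Rone (xorFn f) ≤ (Nat.log 2 n) ^ C ∧ (n : ℝ) ^ (1 - ε) ≤ Rlin f := by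
  obtain ⟨d, hd⟩ := exists_nat_gt (max (8 / ε) 5)
  have hd8 : 8 / ε < d := lt_of_le_of_lt (le_max_left _ _) hd
  have hd5' : (5 : ℝ) < d := lt_of_le_of_lt (le_max_right _ _) hd
  have hd5 : 5 < d := by exact_mod_cast hd5'
  obtain ⟨p, hp1, hp⟩ := Nat.exists_infinite_primes (d + 3)
  obtain ⟨L₀, hL₀⟩ := core d (by omega)
  have htend : Filter.Tendsto (fun N : ℕ => ((N : ℝ)) ^ (ε / 2)) Filter.atTop Filter.atTop :=
    (tendsto_rpow_atTop (by linarith)).comp tendsto_natCast_atTop_atTop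
  obtain ⟨n₁, hn₁⟩ := Filter.eventually_atTop.1 (htend.eventually_ge_atTop 12)
  set a := 128 * (d + 1) with ha
  refine ⟨(a + 1) * d + 1, max n₁ (2 ^ (max L₀ (2 * p + 2))), fun n hn => ?_⟩
  have hna : n₁ ≤ n := (le_max_left _ _).trans hn
  have hnb : 2 ^ (max L₀ (2 * p + 2)) ≤ n := (le_max_right _ _).trans hn
  have hn0 : 0 < n := lt_of_lt_of_le (by positivity) hnb
  have hL : max L₀ (2 * p + 2) ≤ Nat.log 2 n := Nat.le_log_of_pow_le (by norm_num) hnb
  obtain ⟨b, N, hN1, hPN, hn4, hNd, hNL, hqN⟩ := hL₀ n ((le_max_left _ _).trans hL)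
  have hLp : 2 * p + 2 ≤ Nat.log 2 n := (le_max_right _ _).trans hL
  set L := Nat.log 2 n with hLdef
  set t := (d + 1) * 2 ^ b - 1 with ht
  have hpp : p ≤ 2 ^ p := Nat.lt_two_pow_self.le
  obtain ⟨f, hf1, hf2⟩ := inst b d N n p (N + 2 * (p * (N + 1) ^ d)) hp (by omega) (by omega) hPN
    (by
      have h1 : p ^ ((N + 1) ^ d) ≤ 2 ^ (p * (N + 1) ^ d) := by
        calc p ^ ((N + 1) ^ d) ≤ (2 ^ p) ^ ((N + 1) ^ d) := Nat.pow_le_pow_left hpp _
          _ = 2 ^ (p * (N + 1) ^ d) := by rw [← pow_mul]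
      calc 2 ^ N * (p ^ ((N + 1) ^ d) * p ^ ((N + 1) ^ d))
          ≤ 2 ^ N * (2 ^ (p * (N + 1) ^ d) * 2 ^ (p * (N + 1) ^ d)) :=
            Nat.mul_le_mul_left _ (Nat.mul_le_mul h1 h1)
        _ = 2 ^ (N + 2 * (p * (N + 1) ^ d)) := by
            rw [← pow_add, ← pow_add]
            congr 1; ring)
  refine ⟨f, ?_, ?_⟩
  · refine (Nat.sInf_le hf1).trans ?_
    have hL1 : 1 ≤ L := by omega
    have h1 : N + 1 ≤ L ^ (a + 1) := by
      calc N + 1 ≤ 2 * N := by omega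
        _ ≤ 2 * L ^ a := Nat.mul_le_mul_left _ hNL
        _ ≤ L * L ^ a := Nat.mul_le_mul_right _ (by omega)
        _ = L ^ (a + 1) := by rw [pow_succ]; ring
    have h2 : (N + 1) ^ d ≤ L ^ ((a + 1) * d) := by
      rw [pow_mul]
      exact Nat.pow_le_pow_left h1 d
    have h3 : N ≤ (N + 1) ^ d := (Nat.le_succ N).trans (Nat.le_self_pow (by omega) _)
    calc N + 2 * (p * (N + 1) ^ d) ≤ (N + 1) ^ d + 2 * (p * (N + 1) ^ d) :=
          Nat.add_le_add_right h3 _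
      _ = (2 * p + 1) * (N + 1) ^ d := by ring
      _ ≤ L * L ^ ((a + 1) * d) := Nat.mul_le_mul (by omega) h2
      _ = L ^ ((a + 1) * d + 1) := by rw [pow_succ]; ring
  · have h1 := hf2 _ (rlin_spec f)
    rw [← ht] at h1
    set k := Rlin f with hk
    have h2 : N.choose (2 ^ b - 1) ≤ N ^ (2 ^ b) := by
      calc N.choose (2 ^ b - 1) ≤ N ^ (2 ^ b - 1) := Nat.choose_le_pow _ _
        _ ≤ N ^ (2 ^ b) := Nat.pow_le_pow_right hN1 (Nat.sub_le _ _)
    have h3 : N.choose t ≤ 3 * (k * N ^ (2 ^ b)) :=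
      h1.trans (Nat.mul_le_mul_left _ (Nat.mul_le_mul_left _ h2))
    have h3' : (N.choose t : ℝ) ≤ 3 * (k * (N : ℝ) ^ (2 ^ b)) := by exact_mod_cast h3
    have h4' : (((N : ℝ) ^ (2 ^ b)) ^ d) ≤ (N.choose t : ℝ) ^ 4 := by exact_mod_cast hNd
    have hn4' : (n : ℝ) ≤ 4 * N.choose t := by exact_mod_cast hn4
    have hnpos : (0 : ℝ) < n := by exact_mod_cast hn0
    have hn1 : (1 : ℝ) ≤ n := by exact_mod_cast hn0
    set Cc : ℝ := (N.choose t : ℝ) with hCc
    have hC0 : 0 < Cc := by linarith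
    set X : ℝ := (N : ℝ) ^ (2 ^ b) with hX
    have hX0 : 0 ≤ X := by positivity
    have hdR : (0 : ℝ) < d := by linarith
    have h5 : X ≤ Cc ^ (4 / (d : ℝ)) := by
      have h6 : (X ^ d) ^ ((d : ℝ)⁻¹) ≤ (Cc ^ 4) ^ ((d : ℝ)⁻¹) :=
        Real.rpow_le_rpow (by positivity) h4' (by positivity)
      rw [Real.pow_rpow_inv_natCast hX0 (by omega)] at h6
      refine h6.trans (le_of_eq ?_)
      rw [← Real.rpow_natCast, ← Real.rpow_mul hC0.le]
      congr 1
    have h6 : 4 / (d : ℝ) ≤ ε / 2 := by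
      rw [div_le_iff₀ hdR]
      rw [div_lt_iff₀ hε] at hd8
      linarith
    have h7 : Cc ^ (1 - 4 / (d : ℝ)) ≤ 3 * k := by
      have h8 : 0 < Cc ^ (4 / (d : ℝ)) := Real.rpow_pos_of_pos hC0 _
      have h9 : Cc = Cc ^ (1 - 4 / (d : ℝ)) * Cc ^ (4 / (d : ℝ)) := by
        rw [← Real.rpow_add hC0]
        simp
      have h10 : Cc ^ (1 - 4 / (d : ℝ)) * Cc ^ (4 / (d : ℝ)) ≤
          (3 * k) * Cc ^ (4 / (d : ℝ)) := by
        rw [← h9]
        calc Cc ≤ 3 * (k * X) := h3'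
          _ = (3 * k) * X := by ring
          _ ≤ (3 * k) * Cc ^ (4 / (d : ℝ)) := mul_le_mul_of_nonneg_left h5 (by positivity)
      exact le_of_mul_le_mul_right h10 h8
    have h41 : 4 / (d : ℝ) < 1 := by
      rw [div_lt_one hdR]
      linarith
    have h8 : (n : ℝ) ^ (1 - 4 / (d : ℝ)) ≤ 12 * k := by
      calc (n : ℝ) ^ (1 - 4 / (d : ℝ)) ≤ (4 * Cc) ^ (1 - 4 / (d : ℝ)) :=
            Real.rpow_le_rpow hnpos.le hn4' (by linarith)
        _ = 4 ^ (1 - 4 / (d : ℝ)) * Cc ^ (1 - 4 / (d : ℝ)) :=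
            Real.mul_rpow (by norm_num) hC0.le
        _ ≤ 4 * (3 * k) := by
            refine mul_le_mul ?_ h7 (by positivity) (by norm_num)
            calc (4 : ℝ) ^ (1 - 4 / (d : ℝ)) ≤ 4 ^ (1 : ℝ) := by
                  refine Real.rpow_le_rpow_of_exponent_le (by norm_num) ?_
                  have : 0 < 4 / (d : ℝ) := by positivity
                  linarith
              _ = 4 := Real.rpow_one 4
        _ = 12 * k := by ring
    have h9 : (12 : ℝ) ≤ (n : ℝ) ^ (ε / 2) := hn₁ n hna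
    have h10 : (n : ℝ) ^ (1 - ε) * 12 ≤ (n : ℝ) ^ (1 - 4 / (d : ℝ)) := by
      calc (n : ℝ) ^ (1 - ε) * 12 ≤ (n : ℝ) ^ (1 - ε) * (n : ℝ) ^ (ε / 2) :=
            mul_le_mul_of_nonneg_left h9 (by positivity)
        _ = (n : ℝ) ^ (1 - ε / 2) := by
            rw [← Real.rpow_add hnpos]
            congr 1
            ring
        _ ≤ (n : ℝ) ^ (1 - 4 / (d : ℝ)) :=
            Real.rpow_le_rpow_of_exponent_le hn1 (by linarith)
    linarith

/-- The sketch complexity is not bounded by any polynomial in the communication and in `log n`. -/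
theorem part3 : ¬ ∃ C : ℕ, ∀ n : ℕ, 1 ≤ n → ∀ f : (Fin n → ZMod 2) → Bool,
    (Rlin f : ℝ) ≤ C * (1 + Real.logb 2 n + Rone (xorFn f)) ^ C := by
  rintro ⟨C, h⟩
  have hlog : ∀ᶠ n : ℕ in Filter.atTop, 12 * ((C : ℝ) * (12 * Real.logb 2 n) ^ C) <
      (n : ℝ) ^ (1 / 12 : ℝ) := by
    have h1 : (fun x : ℝ => Real.log x ^ C) =o[Filter.atTop] fun x => x ^ (1 / 12 : ℝ) := by
      have := isLittleO_log_rpow_rpow_atTop (s := (1 / 12 : ℝ)) (C : ℝ) (by norm_num)
      simpa [Real.rpow_natCast] using this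
    have hK : (0 : ℝ) < 1 / (2 * (12 * C * (12 / Real.log 2) ^ C + 1)) := by
      have : 0 < Real.log 2 := Real.log_pos (by norm_num)
      positivity
    have h2 := h1.def hK
    have h3 := tendsto_natCast_atTop_atTop (R := ℝ) |>.eventually h2
    filter_upwards [h3, Filter.eventually_ge_atTop 1] with n hn hn1
    have hnpos : (0 : ℝ) < n := by exact_mod_cast hn1
    have hn1' : (1 : ℝ) ≤ n := by exact_mod_cast hn1
    have hlog0 : 0 ≤ Real.log n := Real.log_nonneg hn1'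
    rw [Real.norm_of_nonneg (by positivity), Real.norm_of_nonneg (by positivity)] at hn
    have hl2 : 0 < Real.log 2 := Real.log_pos (by norm_num)
    have h4 : 12 * ((C : ℝ) * (12 * Real.logb 2 n) ^ C) =
        (12 * C * (12 / Real.log 2) ^ C) * Real.log n ^ C := by
      unfold Real.logb
      rw [show 12 * (Real.log (n : ℝ) / Real.log 2) = (12 / Real.log 2) * Real.log n by ring,
        mul_pow]
      ring
    rw [h4]
    have h5 : 0 < (n : ℝ) ^ (1 / 12 : ℝ) := Real.rpow_pos_of_pos hnpos _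
    set B := 12 * (C : ℝ) * (12 / Real.log 2) ^ C with hB
    have hB0 : 0 ≤ B := by positivity
    calc B * Real.log n ^ C ≤ B * (1 / (2 * (B + 1)) * (n : ℝ) ^ (1 / 12 : ℝ)) :=
          mul_le_mul_of_nonneg_left hn hB0
      _ = (B / (2 * (B + 1))) * (n : ℝ) ^ (1 / 12 : ℝ) := by ring
      _ < 1 * (n : ℝ) ^ (1 / 12 : ℝ) := by
          refine mul_lt_mul_of_pos_right ?_ h5
          rw [div_lt_one (by positivity)]
          linarith
      _ = _ := one_mul _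
  obtain ⟨n, hn1, hn2⟩ := (hlog.and (Filter.eventually_ge_atTop (2 ^ 12))).exists
  obtain ⟨f, hf1, hf2⟩ := part1 n hn2
  have h1 := h n (by omega) f
  have hnpos : (0 : ℝ) < n := by
    have : 0 < n := by omega
    exact_mod_cast this
  have h2 : ((Nat.log 2 n : ℕ) : ℝ) ≤ Real.logb 2 n := by
    have := Real.natLog_le_logb n 2
    exact_mod_cast this
  have h12 : (12 : ℝ) ≤ Real.logb 2 n := by
    have h3 : 12 ≤ Nat.log 2 n := Nat.le_log_of_pow_le (by norm_num) hn2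
    have h4 : (12 : ℝ) ≤ (Nat.log 2 n : ℕ) := by exact_mod_cast h3
    linarith
  have h3 : (Rone (xorFn f) : ℝ) ≤ 5 * Real.logb 2 n + 4 := by
    have h4 : (Rone (xorFn f) : ℝ) ≤ 5 * (Nat.log 2 n : ℕ) + 4 := by exact_mod_cast hf1
    linarith
  have h4 : (C : ℝ) * (1 + Real.logb 2 n + Rone (xorFn f)) ^ C ≤
      C * (12 * Real.logb 2 n) ^ C := by
    refine mul_le_mul_of_nonneg_left ?_ (Nat.cast_nonneg _)
    refine pow_le_pow_left₀ (by positivity) ?_ _
    linarith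
  have h5 : 0 ≤ (C : ℝ) * (12 * Real.logb 2 n) ^ C := by positivity
  linarith

end Pool.Agent.Y601.SK
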