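import Pool.Agent.Y601.SK.Abs

/-!
# The functions

The tests are the `t`-subsets `X` of `[N]`, `t = (d + 1) 2^b - 1`, and `rh w X` is the product of
`|X ∩ w| - (i 2^b - 1)` for `i = 1, …, d` modulo an odd prime `p > d`.
-/

set_option autoImplicit false

open Finset

namespace Pool.Agent.Y601.SK

open Pool.Agent.Helper12.SketchSep (chi HasSketch HasOneWay xorFn)

/-- A case of Lucas' theorem. -/
theorem odd_choose (b : ℕ) : ∀ s : ℕ, s.choose (2 ^ b - 1) % 2 = 1 ↔ s % 2 ^ b = 2 ^ b - 1 := by
  induction b with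
  | zero => intro s; simp [Nat.mod_one]
  | succ b ih =>
    intro s
    have hpos : 1 ≤ 2 ^ b := Nat.one_le_two_pow
    have e1 : (2 ^ (b + 1) - 1) % 2 = 1 := by rw [pow_succ]; omega
    have e2 : (2 ^ (b + 1) - 1) / 2 = 2 ^ b - 1 := by rw [pow_succ]; omega
    have h := Choose.choose_modEq_choose_mod_mul_choose_div_nat (n := s) (k := 2 ^ (b + 1) - 1)
      (p := 2)
    rw [e1, e2, Nat.choose_one_right] at h
    rw [h, Nat.mul_mod]
    have h3 := ih (s / 2)
    have h4 : s % 2 ^ (b + 1) = s % 2 + 2 * (s / 2 % 2 ^ b) := by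
      rw [pow_succ', Nat.mod_mul]
    rw [h4]
    have h5 : 2 ^ (b + 1) - 1 = 1 + 2 * (2 ^ b - 1) := by rw [pow_succ]; omega
    rw [h5]
    have h6 : s % 2 = 0 ∨ s % 2 = 1 := Nat.mod_two_eq_zero_or_one s
    have h7 : (s / 2).choose (2 ^ b - 1) % 2 = 0 ∨ (s / 2).choose (2 ^ b - 1) % 2 = 1 :=
      Nat.mod_two_eq_zero_or_one _
    rcases h6 with h6 | h6 <;> rcases h7 with h7 | h7 <;> rw [h6, h7] <;> simp only [h7] at h3
    · simp; omega
    · simp; omega
    · have : s / 2 % 2 ^ b ≠ 2 ^ b - 1 := by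
        intro h
        have := h3.2 h
        omega
      simp; omega
    · have : s / 2 % 2 ^ b = 2 ^ b - 1 := h3.1 trivial
      simp; omega

section
variable {N t : ℕ}

/-- the `t`-subsets -/
abbrev Sub (N t : ℕ) : Type := {X : Finset (Fin N) // X.card = t}

theorem card_Sub (N t : ℕ) : Fintype.card (Sub N t) = N.choose t := by
  rw [Fintype.card_subtype]
  have : (Finset.univ.filter fun X : Finset (Fin N) => X.card = t) =
      Finset.powersetCard t (Finset.univ : Finset (Fin N)) := by
    ext X; simp [Finset.mem_powersetCard]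
  rw [this, Finset.card_powersetCard, Finset.card_univ, Fintype.card_fin]

variable {p d : ℕ}

/-- features of one factor -/
def f1 (p : ℕ) {N t : ℕ} (X : Sub N t) : Option (Fin N) → ZMod p
  | none => 1
  | some a => if a ∈ X.1 then 1 else 0

/-- coefficients of one factor -/
def c1 (p : ℕ) {N : ℕ} (s : ℕ) (w : Fin N → ZMod 2) : Option (Fin N) → ZMod p
  | none => -(s : ZMod p)
  | some a => if w a ≠ 0 then 1 else 0

/-- features -/
def phi (p d : ℕ) {N t : ℕ} (X : Sub N t) (i : Fin d → Option (Fin N)) : ZMod p :=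
  ∏ l, f1 p X (i l)

/-- coefficients -/
def psi (p d q : ℕ) {N : ℕ} (w : Fin N → ZMod 2) (i : Fin d → Option (Fin N)) : ZMod p :=
  ∏ l : Fin d, c1 p ((l.1 + 1) * q - 1) w (i l)

/-- the point of a test -/
def pnt (w : Sub N t) : Fin N → ZMod 2 := fun a => if a ∈ w.1 then 1 else 0

theorem sum_f1_c1 (p s : ℕ) (w X : Sub N t) :
    ∑ o, f1 p X o * c1 p s (pnt w) o = ((X.1 ∩ w.1).card : ZMod p) - s := by
  rw [Fintype.sum_option]
  have h1 : f1 p X none * c1 p s (pnt w) none = -(s : ZMod p) := by simp [f1, c1]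
  have h2 : ∑ a : Fin N, f1 p X (some a) * c1 p s (pnt w) (some a) =
      ((X.1 ∩ w.1).card : ZMod p) := by
    rw [Finset.card_eq_sum_ones, Nat.cast_sum,
      ← Finset.sum_filter_add_sum_filter_not (Finset.univ : Finset (Fin N))
        (fun a => a ∈ X.1 ∩ w.1)]
    rw [Finset.filter_mem_eq_inter, Finset.univ_inter]
    have h3 : ∑ a ∈ Finset.univ.filter (fun a => a ∉ X.1 ∩ w.1),
        f1 p X (some a) * c1 p s (pnt w) (some a) = 0 := by
      refine Finset.sum_eq_zero fun a ha => ?_
      rw [Finset.mem_filter, Finset.mem_inter] at ha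
      by_cases h4 : a ∈ X.1
      · have h5 : a ∉ w.1 := fun h => ha.2 ⟨h4, h⟩
        simp [f1, c1, pnt, h5]
      · simp [f1, h4]
    rw [h3, add_zero]
    refine Finset.sum_congr rfl fun a ha => ?_
    rw [Finset.mem_inter] at ha
    simp [f1, c1, pnt, ha.1, ha.2]
  rw [h1, h2]
  ring

theorem rh_eq (p d q : ℕ) (w X : Sub N t) :
    rh (phi p d) (psi p d q) (pnt w) X =
      ∏ l : Fin d, (((X.1 ∩ w.1).card : ZMod p) - (((l.1 + 1) * q - 1 : ℕ) : ZMod p)) := by
  unfold rh phi psi
  have h1 : ∀ i : Fin d → Option (Fin N),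
      (∏ l, f1 p X (i l)) * ∏ l : Fin d, c1 p ((l.1 + 1) * q - 1) (pnt w) (i l) =
      ∏ l : Fin d, (f1 p X (i l) * c1 p ((l.1 + 1) * q - 1) (pnt w) (i l)) := by
    intro i
    rw [Finset.prod_mul_distrib]
  simp only [h1]
  have h2 := Finset.prod_univ_sum (fun _ : Fin d => (Finset.univ : Finset (Option (Fin N))))
    (fun l o => f1 p X o * c1 p ((l.1 + 1) * q - 1) (pnt w) o)
  rw [Fintype.piFinset_univ] at h2
  rw [← h2]
  refine Finset.prod_congr rfl fun l _ => ?_
  exact sum_f1_c1 p _ w X

/-- inclusion bits -/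
def inc {e : ℕ} (w : Sub N t) (m : Sub N e) : ZMod 2 := if m.1 ⊆ w.1 then 1 else 0

theorem sum_inc {e : ℕ} (w X : Sub N t) :
    ∑ m : Sub N e, inc w m * inc X m = (((X.1 ∩ w.1).card.choose e : ℕ) : ZMod 2) := by
  have h1 : ∀ m : Sub N e, inc w m * inc X m = if m.1 ⊆ X.1 ∩ w.1 then 1 else 0 := by
    intro m
    unfold inc
    by_cases h2 : m.1 ⊆ w.1 <;> by_cases h3 : m.1 ⊆ X.1 <;>
      simp [h2, h3, Finset.subset_inter_iff]
  simp only [h1]
  rw [← Finset.sum_filter, Finset.sum_const, nsmul_eq_mul, mul_one]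
  congr 1
  rw [← Finset.card_powersetCard]
  refine Finset.card_bij (fun m _ => m.1) ?_ ?_ ?_
  · intro m hm
    rw [Finset.mem_filter] at hm
    rw [Finset.mem_powersetCard]
    exact ⟨hm.2, m.2⟩
  · intro m _ m' _ h
    exact Subtype.ext h
  · intro E hE
    rw [Finset.mem_powersetCard] at hE
    exact ⟨⟨E, hE.2⟩, by rw [Finset.mem_filter]; exact ⟨Finset.mem_univ _, hE.1⟩, rfl⟩

end

theorem card_inter_lt {N t : ℕ} {w X : Sub N t} (h : w ≠ X) : (X.1 ∩ w.1).card < t := by
  by_contra hlt
  push Not at hlt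
  have h3 : X.1 ∩ w.1 = X.1 := Finset.eq_of_subset_of_card_le
    Finset.inter_subset_left (by rw [X.2]; exact hlt)
  have h4 : X.1 ∩ w.1 = w.1 := Finset.eq_of_subset_of_card_le
    Finset.inter_subset_right (by rw [w.2]; exact hlt)
  exact h (Subtype.ext (h4.symm.trans h3))

/-- The separation with all parameters. -/
theorem inst (b d N n p c : ℕ) (hpp : p.Prime) (hp2 : 2 < p) (hpd : d < p)
    (hn : N + N.choose ((d + 1) * 2 ^ b - 1) ≤ n)
    (hc : 2 ^ N * (p ^ ((N + 1) ^ d) * p ^ ((N + 1) ^ d)) ≤ 2 ^ c) :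
    ∃ f : (Fin n → ZMod 2) → Bool, HasOneWay (xorFn f) c ∧
      ∀ k, HasSketch f k → N.choose ((d + 1) * 2 ^ b - 1) ≤ 3 * (k * N.choose (2 ^ b - 1)) := by
  classical
  have : Fact p.Prime := ⟨hpp⟩
  set q := 2 ^ b with hq
  have hq1 : 1 ≤ q := Nat.one_le_two_pow
  set t := (d + 1) * q - 1 with ht
  have hle : Fintype.card (Fin N ⊕ Sub N t) ≤ Fintype.card (Fin n) := by
    rw [Fintype.card_sum, Fintype.card_fin, card_Sub, Fintype.card_fin]
    exact hn
  obtain ⟨j⟩ := Function.Embedding.nonempty_of_card_le hle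
  have hI : Fintype.card (Fin d → Option (Fin N)) = (N + 1) ^ d := by simp
  refine ⟨gg j (phi p d) (psi p d q), ?_, ?_⟩
  · refine hasOneWay_gg (by omega) j _ _ c ?_
    rw [hI]
    exact hc
  · intro k hk
    have h := sketch_bound (phi p d) (psi p d q) (pnt (N := N) (t := t)) j.injective hk
      (Q := Sub N (q - 1)) inc inc ?_ ?_ ?_
    · rwa [card_Sub, card_Sub] at h
    · -- diagonal
      intro w
      rw [sum_inc, Finset.inter_self, w.2]
      have h1 : t.choose (2 ^ b - 1) % 2 = 1 := by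
        rw [odd_choose, ← hq, ht]
        have e1 : (d + 1) * q - 1 = q - 1 + d * q := by
          have : (d + 1) * q = d * q + q := by ring
          omega
        rw [e1, Nat.add_mul_mod_self_right, Nat.mod_eq_of_lt (by omega)]
      rw [← hq] at h1
      rw [← ZMod.natCast_mod, h1]
      rfl
    · -- off the diagonal
      intro w X hwX hr
      rw [sum_inc]
      set s := (X.1 ∩ w.1).card with hs
      have hst : s < t := card_inter_lt hwX
      have h2 : s.choose (2 ^ b - 1) % 2 ≠ 1 := by
        intro h3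
        rw [odd_choose, ← hq] at h3
        apply hr
        rw [rh_eq, ← hs]
        have h4 := Nat.div_add_mod s q
        rw [h3] at h4
        have h5 : s / q < d := by
          by_contra h6
          push Not at h6
          have h7 : q * d ≤ q * (s / q) := Nat.mul_le_mul_left _ h6
          have h8 : (d + 1) * q = q * d + q := by ring
          omega
        refine Finset.prod_eq_zero (Finset.mem_univ (⟨s / q, h5⟩ : Fin d)) ?_
        have h9 : (s / q + 1) * q - 1 = s := by
          have : (s / q + 1) * q = q * (s / q) + q := by ring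
          omega
        show (s : ZMod p) - (((s / q + 1) * q - 1 : ℕ) : ZMod p) = 0
        rw [h9, sub_self]
      have h3 : s.choose (q - 1) % 2 = 0 := by
        rw [← hq] at h2
        omega
      rw [← ZMod.natCast_mod, h3]
      rfl
    · -- the test itself
      intro w
      rw [rh_eq, Finset.inter_self, w.2, Finset.prod_ne_zero_iff]
      intro l _
      have hl := l.2
      generalize l.1 = x at hl
      have e1 : (x + 1) * q ≤ d * q := Nat.mul_le_mul_right _ hl
      have e2 : (d + 1) * q = d * q + q := by ring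
      have e3 : (x + 1) * q - 1 ≤ t := by omega
      rw [← Nat.cast_sub e3]
      intro h0
      rw [ZMod.natCast_eq_zero_iff] at h0
      have e4 : t - ((x + 1) * q - 1) = (d - x) * q := by
        have e6 : (d + 1) * q = (x + 1) * q + (d - x) * q := by
          rw [← add_mul]
          congr 1
          omega
        have e7 : 1 ≤ (x + 1) * q := Nat.mul_pos (by omega) (by omega)
        omega
      rw [e4, hpp.dvd_mul] at h0
      rcases h0 with h0 | h0
      · have := Nat.le_of_dvd (by omega) h0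
        omega
      · rw [hq] at h0
        have := hpp.dvd_of_dvd_pow h0
        have := Nat.le_of_dvd (by norm_num) this
        omega

end Pool.Agent.Y601.SK
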